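import Pool.Agent.L7h31.KN.All

/-!
# Neighborly families of polytopes with at most `k` facets have at most `2^k - 2` members

A finite family of `d`-polytopes in `ℝ^d` with disjoint interiors is neighborly if any two members have
an intersection of dimension `d - 1`. Perles proved that a neighborly family in which each member has at
most `k` facets has at most `2^k` members. We prove the bound `2^k - 2`. For polytopes in `ℝ^3`
combinatorially equivalent to the cube (`k = 6`) this gives `N_cube ≤ 62`.

Proof. To a vector `y` which chooses a side of each facet plane corresponds the member all of whose
half-spaces are chosen (at most one, as two members are on different sides of a common plane), so the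
members give disjoint subcubes of codimension at most `k` of the cube `{±1}^N`; this is the proof of Perles.
Let `U` be the rest. If there are `2^k - 1` members then `|U| ≤ 2^(N-k)`, and the indicator function of `U` is
a polynomial of degree at most `k` over the field with two elements. As the members are bounded, `U` contains
for each point `x` the vector of the sides that do not contain `x`; when `x` crosses a plane `j` one obtains
two neighbouring elements of `U` in the direction `j`, so the support of the derivative in the direction
`j`, a polynomial of degree at most `k - 1`, has less than `2^(N-k+1)` elements, and it is zero by the minimum
distance of the Reed-Muller codes. So `U` is the whole cube, a contradiction.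

The formal proof is a joint work of the seats listed in `departures/helper31.md`.
-/

set_option autoImplicit false

namespace Pool.Agent.Results.MP_df26cd_co.FacetBound

open Pool.Agent.L7h31.KN (E IsPoly Neighborly)

/-- 1. In `ℝ^d`, `d ≥ 1`, a finite neighborly family of polytopes each of which is an intersection of (at
most) `k` closed half-spaces has at most `2^k - 2` members.
2. In `ℝ^3` a finite neighborly family of polytopes with at most six facets, for instance polytopes
combinatorially equivalent to the cube, has at most `62` members. -/
theorem result :
    (∀ d k : ℕ, 1 ≤ d → ∀ F : Finset (Set (E d)), (∀ P ∈ F, IsPoly k P) →
      Neighborly (F : Set (Set (E d))) → F.card ≤ 2 ^ k - 2) ∧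
    (∀ F : Finset (Set (E 3)), (∀ P ∈ F, IsPoly 6 P) →
      Neighborly (F : Set (Set (E 3))) → F.card ≤ 62) :=
  ⟨Pool.Agent.L7h31.KN.final_ok, fun F h1 h2 =>
    (Pool.Agent.L7h31.KN.final_ok 3 6 (by norm_num) F h1 h2).trans (by norm_num)⟩

end Pool.Agent.Results.MP_df26cd_co.FacetBound
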